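import Pool.Agent.W203.WS.Stm2

set_option autoImplicit false

/-! Project WT, part FL (owner helper203). -/

open MeasureTheory Finset Filter Topology

namespace Pool.Agent.W431.WT

open Pool.Agent.W203.WS

theorem growth (k s : ℕ) (hk : 2 ≤ k) (hs : 2 * k < s) (c C1 C2 : ℝ) (hc : 0 < c)
    (hC2 : 0 < C2) : ∀ᶠ x : ℝ in atTop,
      (C1 + 1 ≤ c / 2 * x ^ ((s : ℝ) - k - 1 / 16)) ∧ (x ^ (-(1 / 16) : ℝ) < c / 2) ∧
      ((C2 * x) ^ s * Real.exp (-(Real.pi / 8) * x ^ (1 / (8 * (s : ℝ)))) ≤ 1) ∧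
      (x ^ (-(1 / (16 * (s : ℝ)))) * s ≤ 1) ∧ 1 ≤ x := by
  have hs0 : (0 : ℝ) < s := by
    have : 0 < s := by omega
    exact_mod_cast this
  have hsk : (k : ℝ) + 1 ≤ s := by
    have : k + 1 ≤ s := by omega
    exact_mod_cast this
  have ha : (0 : ℝ) < (s : ℝ) - k - 1 / 16 := by linarith
  have hb : (0 : ℝ) < 1 / (8 * (s : ℝ)) := by positivity
  have g1 := (tendsto_rpow_atTop ha).eventually_ge_atTop ((C1 + 1) / (c / 2))
  have g2 : ∀ᶠ x : ℝ in atTop, x ^ (-(1 / 16) : ℝ) < c / 2 :=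
    (tendsto_rpow_neg_atTop (by norm_num : (0 : ℝ) < 1 / 16)).eventually_lt_const (by linarith)
  have g4 : ∀ᶠ x : ℝ in atTop, x ^ (-(1 / (16 * (s : ℝ)))) < 1 / s :=
    (tendsto_rpow_neg_atTop (by positivity : (0 : ℝ) < 1 / (16 * (s : ℝ)))).eventually_lt_const
      (by positivity)
  have h3 := (isLittleO_exp_neg_mul_rpow_atTop (by positivity : (0 : ℝ) < Real.pi / 8)
    (-((s : ℝ) / (1 / (8 * (s : ℝ)))))).comp_tendsto (tendsto_rpow_atTop hb)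
  have g3 := h3.bound (by positivity : (0 : ℝ) < 1 / C2 ^ s)
  filter_upwards [g1, g2, g3, g4, eventually_ge_atTop (1 : ℝ)] with x y1 y2 y3 y4 y5
  have hx : 0 < x := by linarith
  refine ⟨?_, y2, ?_, ?_, y5⟩
  · rw [div_le_iff₀ (by positivity)] at y1
    linarith
  · simp only [Function.comp_apply, Real.norm_eq_abs, abs_of_pos (Real.exp_pos _)] at y3
    rw [← Real.rpow_mul hx.le] at y3
    have e1 : 1 / (8 * (s : ℝ)) * -((s : ℝ) / (1 / (8 * (s : ℝ)))) = -(s : ℝ) := by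
      field_simp
    rw [e1, Real.rpow_neg hx.le, Real.rpow_natCast, abs_of_pos (by positivity)] at y3
    calc (C2 * x) ^ s * Real.exp (-(Real.pi / 8) * x ^ (1 / (8 * (s : ℝ))))
        ≤ (C2 * x) ^ s * (1 / C2 ^ s * (x ^ s)⁻¹) :=
          mul_le_mul_of_nonneg_left y3 (by positivity)
      _ = 1 := by
          rw [mul_pow]
          field_simp
  · have := (mul_lt_mul_of_pos_right y4 hs0).le
    rwa [div_mul_cancel₀ _ hs0.ne'] at this

theorem t_FL (h1 : S_BC2) (h2 : S_MT) (h3 : S_NEAR) : S_FL := by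
  intro k s hk hs
  have hs5 : 5 ≤ s := by omega
  have hs0 : (0 : ℝ) < s := by
    have : 0 < s := by omega
    exact_mod_cast this
  obtain ⟨c, C1, hc, hC1, hMT⟩ := h2 k s hk hs5
  obtain ⟨C2, hC2, hNEAR⟩ := h3 s
  filter_upwards [h1 k s hk hs] with θ hθ
  obtain ⟨j0, hj0⟩ := hθ
  intro L
  have hg := (tendsto_pow_atTop_atTop_of_one_lt (one_lt_two : (1 : ℝ) < 2)).eventually
    (growth k s hk hs c C1 C2 hc hC2)
  obtain ⟨j1, hj1⟩ := eventually_atTop.1 hg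
  let j2 := max (max j0 j1) L
  refine ⟨⌈(s : ℝ) * (3 * (2 : ℝ) ^ j2) ^ k⌉ + 1, fun N hN => ?_⟩
  have hNr : (s : ℝ) * (3 * (2 : ℝ) ^ j2) ^ k < N := by
    have e1 := Int.le_ceil ((s : ℝ) * (3 * (2 : ℝ) ^ j2) ^ k)
    have e2 : ((⌈(s : ℝ) * (3 * (2 : ℝ) ^ j2) ^ k⌉ + 1 : ℤ) : ℝ) ≤ N := by exact_mod_cast hN
    push_cast at e2
    linarith
  -- the scale
  have hex : ∃ j : ℕ, (N : ℝ) + s / 2 ≤ (s : ℝ) * (3 * (2 : ℝ) ^ j) ^ k := by
    obtain ⟨j, hj⟩ := ((tendsto_pow_atTop_atTop_of_one_lt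
      (one_lt_two : (1 : ℝ) < 2)).eventually_ge_atTop ((N : ℝ) + s / 2)).exists
    refine ⟨j, hj.trans ?_⟩
    have hx1 : (1 : ℝ) ≤ (2 : ℝ) ^ j := one_le_pow₀ (by norm_num)
    have hx2 : (2 : ℝ) ^ j ≤ (3 * (2 : ℝ) ^ j) ^ k := by
      calc (2 : ℝ) ^ j ≤ 3 * (2 : ℝ) ^ j := by linarith
        _ = (3 * (2 : ℝ) ^ j) ^ 1 := (pow_one _).symm
        _ ≤ _ := pow_le_pow_right₀ (by linarith) (by omega)
    have hs1 : (1 : ℝ) ≤ s := by
      have : 1 ≤ s := by omega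
      exact_mod_cast this
    nlinarith [pow_pos (by positivity : (0 : ℝ) < 3 * (2 : ℝ) ^ j) k]
  classical
  let j := Nat.find hex
  have hj : (N : ℝ) + s / 2 ≤ (s : ℝ) * (3 * (2 : ℝ) ^ j) ^ k := Nat.find_spec hex
  have hjj : j2 < j := by
    by_contra hcon
    push Not at hcon
    have hm : (s : ℝ) * (3 * (2 : ℝ) ^ j) ^ k ≤ (s : ℝ) * (3 * (2 : ℝ) ^ j2) ^ k := by
      have h2j : (2 : ℝ) ^ j ≤ (2 : ℝ) ^ j2 := pow_le_pow_right₀ (by norm_num) hcon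
      gcongr
    linarith
  have hlow : (s : ℝ) * (3 / 2 * (2 : ℝ) ^ j) ^ k ≤ (N : ℝ) + s / 2 := by
    have hmin := Nat.find_min hex (m := j - 1) (by
      have : 0 < j := by omega
      exact Nat.sub_lt this one_pos)
    push Not at hmin
    have he : (3 : ℝ) / 2 * (2 : ℝ) ^ j = 3 * (2 : ℝ) ^ (j - 1) := by
      have : j = (j - 1) + 1 := by omega
      rw [this, pow_succ, Nat.add_sub_cancel]
      ring
    rw [he]
    exact hmin.le
  have hj0' : j0 ≤ j := le_trans (le_trans (le_max_left _ _) (le_max_left _ _)) hjj.le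
  have hj1' : j1 ≤ j := le_trans (le_trans (le_max_right _ _) (le_max_left _ _)) hjj.le
  have hjL : L ≤ j := le_trans (le_max_right _ _) hjj.le
  by_contra hno
  have hno' : ∀ x ∈ Fintype.piFinset (fun _ : Fin s => Ico ((2 : ℕ) ^ j) (4 * (2 : ℕ) ^ j)),
      ∑ i, ⌊((x i : ℝ) + θ i) ^ k⌋ ≠ N := by
    intro x hx heq
    apply hno
    refine ⟨x, fun i => ?_, heq⟩
    have hxi := Fintype.mem_piFinset.1 hx i
    have h2j : 2 ^ j ≤ x i := (Finset.mem_Ico.1 hxi).1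
    exact le_trans (le_trans hjL (Nat.lt_two_pow_self).le) h2j
  obtain ⟨G1, G2, G3, G4, G5⟩ := hj1 j hj1'
  generalize hX : (2 : ℝ) ^ j = X at *
  have hX0 : 0 < X := by linarith
  have hcast : ((2 ^ j : ℕ) : ℝ) = X := by rw [← hX]; push_cast; rfl
  have hσ0 : 0 < X ^ (-(1 / (16 * (s : ℝ)))) := Real.rpow_pos_of_pos hX0 _
  have hσ1 : X ^ (-(1 / (16 * (s : ℝ)))) ≤ 1 :=
    Real.rpow_le_one_of_one_le_of_nonpos G5 (by
      have : (0 : ℝ) ≤ 1 / (16 * (s : ℝ)) := by positivity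
      linarith)
  have hB := hj0 j hj0' N
  rw [hX] at hB
  have hM := hMT (2 ^ j) (X ^ (-(1 / (16 * (s : ℝ))))) N Nat.one_le_two_pow hσ0 G4
    (by rw [hcast]; exact hlow) (by rw [hcast]; exact hj)
  have hR := hNEAR k (2 ^ j) (X ^ (-(1 / (16 * (s : ℝ))))) θ N Nat.one_le_two_pow hσ0 hσ1 hno'
  rw [hcast] at hM hR
  have e1 : (X ^ (-(1 / (16 * (s : ℝ))))) ^ s = X ^ (-(1 / 16) : ℝ) := by
    rw [← Real.rpow_natCast, ← Real.rpow_mul hX0.le]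
    congr 1
    field_simp
  have e2 : X ^ (-(1 / 16) : ℝ) * X ^ ((s : ℝ) - k) = X ^ ((s : ℝ) - k - 1 / 16) := by
    rw [← Real.rpow_add hX0]
    congr 1
    ring
  have e3 : -(Real.pi / (8 * (X ^ (-(1 / (16 * (s : ℝ))))) ^ 2)) =
      -(Real.pi / 8) * X ^ (1 / (8 * (s : ℝ))) := by
    have e4 : (X ^ (-(1 / (16 * (s : ℝ))))) ^ 2 = (X ^ (1 / (8 * (s : ℝ))))⁻¹ := by
      rw [← Real.rpow_natCast, ← Real.rpow_mul hX0.le, ← Real.rpow_neg hX0.le]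
      congr 1
      push_cast
      field_simp
      norm_num
    rw [e4]
    have : X ^ (1 / (8 * (s : ℝ))) ≠ 0 := (Real.rpow_pos_of_pos hX0 _).ne'
    field_simp
  have e5 : X ^ ((s : ℝ) - k - 1 / 8) = X ^ ((s : ℝ) - k - 1 / 16) * X ^ (-(1 / 16) : ℝ) := by
    rw [← Real.rpow_add hX0]
    congr 1
    ring
  rw [e3] at hR
  rw [e5] at hB
  rw [e1, mul_assoc, e2] at hM
  have ha : 0 < X ^ ((s : ℝ) - k - 1 / 16) := Real.rpow_pos_of_pos hX0 _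
  have h6 : X ^ ((s : ℝ) - k - 1 / 16) * X ^ (-(1 / 16) : ℝ) <
      X ^ ((s : ℝ) - k - 1 / 16) * (c / 2) := mul_lt_mul_of_pos_left G2 ha
  have h7 := norm_sub_norm_le
    (∫ t in (-(1 / 2) : ℝ)..(1 / 2), e (-(t * N)) *
      (aa (X ^ (-(1 / (16 * (s : ℝ))))) t ^ s * J1 k (2 ^ j) t ^ s))
    (∫ t in (-(1 / 2) : ℝ)..(1 / 2), e (-(t * N)) *
            ∏ i, T k (2 ^ j) (X ^ (-(1 / (16 * (s : ℝ))))) t (θ i))
  rw [norm_sub_rev] at h7
  linarith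

end Pool.Agent.W431.WT
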